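import Mathlib

/-!
# Lemma T (rare events are negligible for near-invariant laws; MP_75608d_al)

`P` is a symmetric, positivity preserving contraction of `ℓ²(X)`, for example an average of
permutations (`avg`).  If every start leads into the set `E` after `2 j` steps with probability at
most `exp (-2 c j)` and `f` is a unit vector with `⟨f, P f⟩ ≥ 1 - g`, then for every `i` with
`2 i ≤ j` one has `∑_{E} f² ≤ (√(2 i g) + exp (-2 c i))²`.
-/

set_option autoImplicit false
set_option linter.unusedSectionVars false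

namespace Pool.Agent.Helper50.FS

open Finset

variable {X : Type*} [Fintype X]

/-- symmetric, positivity preserving contraction -/
structure IsSA (P : (X → ℝ) →ₗ[ℝ] (X → ℝ)) : Prop where
  symm : ∀ f g : X → ℝ, ∑ x, P f x * g x = ∑ x, f x * P g x
  contr : ∀ f : X → ℝ, ∑ x, P f x ^ 2 ≤ ∑ x, f x ^ 2
  pos : ∀ f : X → ℝ, (∀ x, 0 ≤ f x) → ∀ x, 0 ≤ P f x

/-- squared norm of `P^i v` -/
noncomputable def nrm (P : (X → ℝ) →ₗ[ℝ] (X → ℝ)) (i : ℕ) (v : X → ℝ) : ℝ :=
  ∑ x, (P ^ i) v x ^ 2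

section
variable {P : (X → ℝ) →ₗ[ℝ] (X → ℝ)}

lemma nrm_nonneg (i : ℕ) (v : X → ℝ) : 0 ≤ nrm P i v := sum_nonneg fun _ _ => sq_nonneg _

lemma IsSA.symm_pow (hP : IsSA P) (i : ℕ) (f g : X → ℝ) :
    ∑ x, (P ^ i) f x * g x = ∑ x, f x * (P ^ i) g x := by
  induction i generalizing f g with
  | zero => simp
  | succ i ih =>
    have e1 : (P ^ (i + 1)) f = (P ^ i) (P f) := by rw [pow_succ, Module.End.mul_apply]
    have e2 : (P ^ (i + 1)) g = P ((P ^ i) g) := by rw [pow_succ', Module.End.mul_apply]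
    rw [e1, e2, ih (P f) g, hP.symm f ((P ^ i) g)]

lemma IsSA.pos_pow (hP : IsSA P) (i : ℕ) (f : X → ℝ) (hf : ∀ x, 0 ≤ f x) (x : X) :
    0 ≤ (P ^ i) f x := by
  induction i generalizing f with
  | zero => simpa using hf x
  | succ i ih =>
    rw [pow_succ, Module.End.mul_apply]
    exact ih (P f) (hP.pos f hf)

lemma nrm_anti (hP : IsSA P) (v : X → ℝ) {i j : ℕ} (h : i ≤ j) : nrm P j v ≤ nrm P i v := by
  induction h with
  | refl => exact le_rfl
  | @step j _ ih =>
    refine le_trans ?_ ih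
    unfold nrm
    have : (P ^ (j + 1)) v = P ((P ^ j) v) := by rw [pow_succ', Module.End.mul_apply]
    rw [this]
    exact hP.contr _

lemma nrm_eq (hP : IsSA P) (i : ℕ) (v : X → ℝ) : nrm P i v = ∑ x, v x * (P ^ (2 * i)) v x := by
  unfold nrm
  rw [two_mul, pow_add]
  have := hP.symm_pow i v ((P ^ i) v)
  rw [Module.End.mul_apply, ← this]
  exact sum_congr rfl fun x _ => sq _

lemma nrm_logconv (hP : IsSA P) (i : ℕ) (v : X → ℝ) :
    nrm P (i + 1) v ^ 2 ≤ nrm P i v * nrm P (i + 2) v := by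
  have e : nrm P (i + 1) v = ∑ x, (P ^ i) v x * (P ^ (i + 2)) v x := by
    unfold nrm
    have e1 : (P ^ (i + 2)) v = P ((P ^ (i + 1)) v) := by
      rw [show i + 2 = (i + 1) + 1 from rfl, pow_succ' P (i + 1), Module.End.mul_apply]
    have e2 : (P ^ (i + 1)) v = P ((P ^ i) v) := by rw [pow_succ', Module.End.mul_apply]
    rw [e1, ← hP.symm ((P ^ i) v) ((P ^ (i + 1)) v), ← e2]
    exact sum_congr rfl fun x _ => sq _
  rw [e]
  exact sum_mul_sq_le_sq_mul_sq _ _ _

end

/-- log-convex sequences starting at `1` -/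
lemma logconv_pow {c : ℕ → ℝ} (h0 : ∀ i, 0 ≤ c i) (hc : ∀ i, c (i + 1) ^ 2 ≤ c i * c (i + 2))
    (h1 : c 0 = 1) {s j : ℕ} (hsj : s ≤ j) : c s ^ j ≤ c j ^ s := by
  have step : ∀ i, c i ^ (i + 1) ≤ c (i + 1) ^ i := by
    intro i
    induction i with
    | zero => simp [h1]
    | succ i ih =>
      rcases (h0 (i + 1)).eq_or_lt with h | h
      · rw [← h, zero_pow (by omega)]
        exact pow_nonneg (h0 _) _
      · have e1 : c (i + 1) ^ (2 * (i + 1)) ≤ c (i + 1) ^ i * c (i + 2) ^ (i + 1) := by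
          calc c (i + 1) ^ (2 * (i + 1)) = (c (i + 1) ^ 2) ^ (i + 1) := by rw [pow_mul]
            _ ≤ (c i * c (i + 2)) ^ (i + 1) := pow_le_pow_left₀ (sq_nonneg _) (hc i) _
            _ = c i ^ (i + 1) * c (i + 2) ^ (i + 1) := mul_pow _ _ _
            _ ≤ c (i + 1) ^ i * c (i + 2) ^ (i + 1) :=
              mul_le_mul_of_nonneg_right ih (pow_nonneg (h0 _) _)
        have e2 : c (i + 1) ^ (2 * (i + 1)) = c (i + 1) ^ i * c (i + 1) ^ (i + 1 + 1) := by
          rw [← pow_add]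
          congr 1
          ring
        rw [e2] at e1
        exact le_of_mul_le_mul_left e1 (pow_pos h i)
  induction hsj with
  | refl => exact le_rfl
  | @step j hsj ih =>
    rcases Nat.eq_zero_or_pos j with h | h
    · subst h
      have : s = 0 := Nat.le_zero.1 hsj
      subst this
      simp [h1]
    · have e : (c s ^ (j + 1)) ^ j ≤ (c (j + 1) ^ s) ^ j := by
        calc (c s ^ (j + 1)) ^ j = (c s ^ j) ^ (j + 1) := by rw [← pow_mul, ← pow_mul, mul_comm]
          _ ≤ (c j ^ s) ^ (j + 1) := pow_le_pow_left₀ (pow_nonneg (h0 _) _) ih _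
          _ = (c j ^ (j + 1)) ^ s := by rw [← pow_mul, ← pow_mul, mul_comm]
          _ ≤ (c (j + 1) ^ j) ^ s := pow_le_pow_left₀ (pow_nonneg (h0 _) _) (step j) _
          _ = (c (j + 1) ^ s) ^ j := by rw [← pow_mul, ← pow_mul, mul_comm]
      exact le_of_pow_le_pow_left₀ h.ne' (pow_nonneg (h0 _) _) e

section
variable {P : (X → ℝ) →ₗ[ℝ] (X → ℝ)}

/-- a unit vector with `⟨f, P f⟩ ≥ 1 - g` keeps its norm -/
lemma nrm_near (hP : IsSA P) {f : X → ℝ} (hf : ∑ x, f x ^ 2 = 1) {g : ℝ} (hg1 : g ≤ 1)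
    (hfg : 1 - g ≤ ∑ x, f x * P f x) (i : ℕ) : 1 - 2 * i * g ≤ nrm P i f := by
  have c0 : nrm P 0 f = 1 := by unfold nrm; simpa using hf
  have e1 : (1 - g) ^ 2 ≤ nrm P 1 f := by
    have h2 := sum_mul_sq_le_sq_mul_sq univ f (P f)
    rw [hf, one_mul] at h2
    have h3 : nrm P 1 f = ∑ x, P f x ^ 2 := by unfold nrm; rw [pow_one]
    rw [h3]
    exact (pow_le_pow_left₀ (by linarith) hfg 2).trans h2
  have e2 : nrm P 1 f ^ i ≤ nrm P i f := by
    rcases Nat.eq_zero_or_pos i with h | h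
    · subst h; rw [pow_zero, c0]
    · have := logconv_pow (fun i => nrm_nonneg (P := P) i f) (fun i => nrm_logconv hP i f) c0
        (show 1 ≤ i from h)
      rwa [pow_one] at this
  have e3 : 1 - 2 * (i : ℝ) * g ≤ (1 - g) ^ (2 * i) := by
    have := one_add_mul_le_pow (show (-2 : ℝ) ≤ -g by linarith) (2 * i)
    push_cast at this
    calc 1 - 2 * (i : ℝ) * g = 1 + 2 * (i : ℝ) * -g := by ring
      _ ≤ _ := this
      _ = _ := by ring
  calc 1 - 2 * (i : ℝ) * g ≤ (1 - g) ^ (2 * i) := e3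
    _ = ((1 - g) ^ 2) ^ i := pow_mul _ _ _
    _ ≤ nrm P 1 f ^ i := pow_le_pow_left₀ (sq_nonneg _) e1 i
    _ ≤ nrm P i f := e2

/-- distance of `f` and `P^(2i) f` -/
lemma dist_near (hP : IsSA P) {f : X → ℝ} (hf : ∑ x, f x ^ 2 = 1) {g : ℝ} (hg1 : g ≤ 1)
    (hfg : 1 - g ≤ ∑ x, f x * P f x) (i : ℕ) :
    ∑ x, (f x - (P ^ (2 * i)) f x) ^ 2 ≤ 2 * i * g := by
  have e : ∑ x, (f x - (P ^ (2 * i)) f x) ^ 2 = 1 - 2 * nrm P i f + nrm P (2 * i) f := by
    rw [nrm_eq hP i f, ← hf]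
    unfold nrm
    rw [mul_sum, ← sum_sub_distrib, ← sum_add_distrib]
    exact sum_congr rfl fun x _ => by ring
  have h1 := nrm_near hP hf hg1 hfg i
  have h2 := nrm_anti hP f (show i ≤ 2 * i by omega)
  rw [e]
  linarith

/-- the kernel bound: `⟨v, P^(2j) v⟩ ≤ π ‖v‖²` for `v` supported on `E` -/
lemma quad_le (hP : IsSA P) [DecidableEq X] (E : Finset X) (m : ℕ) {π : ℝ}
    (hE : ∀ x, (P ^ m) (fun y => if y ∈ E then 1 else 0) x ≤ π) (v : X → ℝ)
    (hv : ∀ x, x ∉ E → v x = 0) : ∑ x, v x * (P ^ m) v x ≤ π * ∑ x, v x ^ 2 := by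
  set k : X → X → ℝ := fun y x => (P ^ m) (Pi.single y 1) x with hk
  have k0 : ∀ y x, 0 ≤ k y x := fun y x => hP.pos_pow m _ (fun z => by
    by_cases h : z = y
    · subst h; simp
    · simp [h]) x
  have klin : ∀ (w : X → ℝ) (x : X), (P ^ m) w x = ∑ y, w y * k y x := by
    intro w x
    have hw : w = ∑ y, w y • (Pi.single y (1 : ℝ) : X → ℝ) := by
      ext z
      simp [Finset.sum_apply, Pi.single_apply]
    conv_lhs => rw [hw]
    rw [map_sum, Finset.sum_apply]
    exact sum_congr rfl fun y _ => by rw [map_smul]; rfl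
  have ksym : ∀ x y, k y x = k x y := by
    intro x y
    have := hP.symm_pow m (Pi.single y 1) (Pi.single x 1)
    simpa [hk, Pi.single_apply] using this
  have krow : ∀ x, ∑ y ∈ E, k y x ≤ π := by
    intro x
    refine le_trans (le_of_eq ?_) (hE x)
    rw [klin]
    simp
  have e : ∑ x, v x * (P ^ m) v x = ∑ x ∈ E, ∑ y ∈ E, v x * v y * k y x := by
    rw [← sum_subset (subset_univ E) (fun x _ hx => by rw [hv x hx, zero_mul])]
    refine sum_congr rfl fun x _ => ?_
    rw [klin, mul_sum, ← sum_subset (subset_univ E) (fun y _ hy => by rw [hv y hy]; ring)]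
    exact sum_congr rfl fun y _ => by ring
  have e2 : ∑ x, v x ^ 2 = ∑ x ∈ E, v x ^ 2 := by
    rw [← sum_subset (subset_univ E) (fun x _ hx => by rw [hv x hx]; ring)]
  rw [e, e2]
  calc ∑ x ∈ E, ∑ y ∈ E, v x * v y * k y x
      ≤ ∑ x ∈ E, ∑ y ∈ E, (v x ^ 2 * k y x / 2 + v y ^ 2 * k y x / 2) := by
        refine sum_le_sum fun x _ => sum_le_sum fun y _ => ?_
        have := mul_nonneg (sq_nonneg (v x - v y)) (k0 y x)
        nlinarith
    _ = ∑ x ∈ E, v x ^ 2 * ∑ y ∈ E, k y x := by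
        simp_rw [sum_add_distrib]
        have h1 : ∑ x ∈ E, ∑ y ∈ E, v y ^ 2 * k y x / 2 = ∑ x ∈ E, ∑ y ∈ E, v x ^ 2 * k y x / 2 := by
          rw [sum_comm]
          exact sum_congr rfl fun x _ => sum_congr rfl fun y _ => by rw [ksym]
        rw [h1, ← sum_add_distrib]
        refine sum_congr rfl fun x _ => ?_
        rw [← sum_add_distrib, mul_sum]
        exact sum_congr rfl fun y _ => by ring
    _ ≤ ∑ x ∈ E, v x ^ 2 * π := sum_le_sum fun x _ =>
        mul_le_mul_of_nonneg_left (krow x) (sq_nonneg _)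
    _ = π * ∑ x ∈ E, v x ^ 2 := by rw [← sum_mul, mul_comm]

/-- **Lemma T.** -/
theorem lemmaT (hP : IsSA P) [DecidableEq X] (E : Finset X) {c : ℝ} (i j : ℕ)
    (hij : 2 * i ≤ j)
    (hE : ∀ x, (P ^ (2 * j)) (fun y => if y ∈ E then 1 else 0) x ≤ Real.exp (-(c * (2 * j))))
    {f : X → ℝ} (hf : ∑ x, f x ^ 2 = 1) {g : ℝ} (hg1 : g ≤ 1)
    (hfg : 1 - g ≤ ∑ x, f x * P f x) :
    ∑ x ∈ E, f x ^ 2 ≤ (Real.sqrt (2 * i * g) + Real.exp (-(c * (2 * i)))) ^ 2 := by
  -- norm of `P^(2i)` on functions supported on `E`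
  have key : ∀ v : X → ℝ, (∀ x, x ∉ E → v x = 0) →
      nrm P (2 * i) v ≤ Real.exp (-(c * (2 * i))) ^ 2 * ∑ x, v x ^ 2 := by
    intro v hv
    set V := ∑ x, v x ^ 2 with hV
    have V0 : 0 ≤ V := sum_nonneg fun _ _ => sq_nonneg _
    have n0 : nrm P 0 v = V := by unfold nrm; simp [hV]
    rcases V0.eq_or_lt with h | h
    · have := nrm_anti hP v (Nat.zero_le (2 * i))
      rw [n0, ← h] at this
      rw [← h, mul_zero]
      exact this
    · rcases Nat.eq_zero_or_pos j with hj | hj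
      · have hi : i = 0 := by omega
        subst hi
        simp [n0]
      · -- normalised sequence
        set a : ℕ → ℝ := fun t => nrm P t v / V with ha
        have a0 : ∀ t, 0 ≤ a t := fun t => div_nonneg (nrm_nonneg t v) V0
        have ac : ∀ t, a (t + 1) ^ 2 ≤ a t * a (t + 2) := fun t => by
          simp only [ha]
          rw [div_pow, div_mul_div_comm, ← sq]
          exact div_le_div_of_nonneg_right (nrm_logconv hP t v) (by positivity)
        have a1 : a 0 = 1 := by simp only [ha]; rw [n0, div_self h.ne']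
        have h2 := logconv_pow a0 ac a1 hij
        have h3 : a j ≤ Real.exp (-(c * (2 * j))) := by
          simp only [ha]
          rw [div_le_iff₀ h, nrm_eq hP]
          exact quad_le hP E (2 * j) hE v hv
        have h4 : a (2 * i) ^ j ≤ (Real.exp (-(c * (2 * i))) ^ 2) ^ j := by
          calc a (2 * i) ^ j ≤ a j ^ (2 * i) := h2
            _ ≤ Real.exp (-(c * (2 * j))) ^ (2 * i) := pow_le_pow_left₀ (a0 j) h3 _
            _ = (Real.exp (-(c * (2 * i))) ^ 2) ^ j := by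
              rw [← Real.exp_nat_mul, ← Real.exp_nat_mul, ← Real.exp_nat_mul]
              congr 1
              push_cast
              ring
        have h5 := le_of_pow_le_pow_left₀ hj.ne' (by positivity) h4
        simp only [ha] at h5
        rwa [div_le_iff₀ h] at h5
  -- `w = 1_E P^(2i) f`
  set q := Real.exp (-(c * (2 * i))) with hq
  have q0 : 0 < q := Real.exp_pos _
  set w : X → ℝ := fun x => if x ∈ E then (P ^ (2 * i)) f x else 0 with hw
  have hw0 : ∀ x, x ∉ E → w x = 0 := fun x hx => by simp only [hw]; rw [if_neg hx]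
  set W := ∑ x, w x ^ 2 with hWdef
  have W0 : 0 ≤ W := sum_nonneg fun _ _ => sq_nonneg _
  have w1 : W = ∑ x, f x * (P ^ (2 * i)) w x := by
    rw [← hP.symm_pow, hWdef]
    refine sum_congr rfl fun x _ => ?_
    simp only [hw]
    split_ifs <;> ring
  have w2 : W ≤ q ^ 2 := by
    have h1 := sum_mul_sq_le_sq_mul_sq univ f ((P ^ (2 * i)) w)
    rw [hf, one_mul, ← w1] at h1
    have h2 : ∑ x, (P ^ (2 * i)) w x ^ 2 ≤ q ^ 2 * W := key w hw0
    have h3 : W ^ 2 ≤ q ^ 2 * W := h1.trans h2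
    rcases W0.eq_or_lt with h | h
    · rw [← h]; positivity
    · rw [sq] at h3
      exact le_of_mul_le_mul_right h3 h
  -- Minkowski
  have d := dist_near hP hf hg1 hfg i
  have e1 : ∑ x ∈ E, (f x - (P ^ (2 * i)) f x) ^ 2 ≤ 2 * i * g :=
    (sum_le_sum_of_subset_of_nonneg (subset_univ E) fun _ _ _ => sq_nonneg _).trans d
  have e2 : ∑ x ∈ E, (P ^ (2 * i)) f x ^ 2 = W := by
    rw [hWdef, ← sum_subset (subset_univ E) (fun x _ hx => by rw [hw0 x hx]; ring)]
    refine sum_congr rfl fun x hx => ?_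
    simp only [hw]
    rw [if_pos hx]
  have A0 : 0 ≤ ∑ x ∈ E, (f x - (P ^ (2 * i)) f x) ^ 2 := sum_nonneg fun _ _ => sq_nonneg _
  have g0 : 0 ≤ 2 * (i : ℝ) * g := A0.trans e1
  have cs := sum_mul_sq_le_sq_mul_sq E (fun x => f x - (P ^ (2 * i)) f x)
    (fun x => (P ^ (2 * i)) f x)
  rw [e2] at cs
  have cs2 : ∑ x ∈ E, (f x - (P ^ (2 * i)) f x) * (P ^ (2 * i)) f x ≤
      Real.sqrt (2 * i * g) * q := by
    have h1 : (∑ x ∈ E, (f x - (P ^ (2 * i)) f x) * (P ^ (2 * i)) f x) ^ 2 ≤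
        (Real.sqrt (2 * i * g) * q) ^ 2 := by
      rw [mul_pow, Real.sq_sqrt g0]
      exact cs.trans (mul_le_mul e1 w2 W0 g0)
    exact (le_abs_self _).trans (abs_le_of_sq_le_sq h1 (by positivity))
  calc ∑ x ∈ E, f x ^ 2
      = ∑ x ∈ E, (f x - (P ^ (2 * i)) f x) ^ 2 +
        2 * ∑ x ∈ E, (f x - (P ^ (2 * i)) f x) * (P ^ (2 * i)) f x +
        ∑ x ∈ E, (P ^ (2 * i)) f x ^ 2 := by
        rw [mul_sum, ← sum_add_distrib, ← sum_add_distrib]
        exact sum_congr rfl fun x _ => by ring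
    _ ≤ Real.sqrt (2 * i * g) ^ 2 + 2 * (Real.sqrt (2 * i * g) * q) + q ^ 2 := by
        rw [Real.sq_sqrt g0, e2]
        linarith
    _ = _ := by ring

end

/-! ### Averages of permutations -/

section avg
variable {Λ : Type*} [Fintype Λ]

/-- the average of permutations with weights `S` -/
noncomputable def avg (act : Λ → Equiv.Perm X) (S : Λ → ℝ) : (X → ℝ) →ₗ[ℝ] (X → ℝ) where
  toFun f := fun x => ∑ l, S l * f (act l x)
  map_add' f g := by
    ext x
    simp only [Pi.add_apply, mul_add, sum_add_distrib]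
  map_smul' r f := by
    ext x
    simp only [Pi.smul_apply, smul_eq_mul, RingHom.id_apply, mul_sum]
    exact sum_congr rfl fun l _ => by ring

lemma avg_apply (act : Λ → Equiv.Perm X) (S : Λ → ℝ) (f : X → ℝ) (x : X) :
    avg act S f x = ∑ l, S l * f (act l x) := rfl

/-- symmetric averages of permutations are symmetric positive contractions -/
lemma isSA_avg {act : Λ → Equiv.Perm X} {S : Λ → ℝ} (inv : Λ → Λ)
    (inv_inv : ∀ l, inv (inv l) = l) (act_inv : ∀ l, act (inv l) = (act l)⁻¹)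
    (S0 : ∀ l, 0 ≤ S l) (S1 : ∑ l, S l = 1) (Sinv : ∀ l, S (inv l) = S l) :
    IsSA (avg act S) := by
  have flip : ∀ F : Λ → ℝ, ∑ l, F (inv l) = ∑ l, F l := fun F =>
    Fintype.sum_equiv ⟨inv, inv, inv_inv, inv_inv⟩ _ _ fun l => rfl
  refine ⟨fun f g => ?_, fun f => ?_, fun f hf x => ?_⟩
  · have e1 : ∑ x, avg act S f x * g x = ∑ l, S l * ∑ x, f (act l x) * g x := by
      simp_rw [avg_apply, sum_mul, mul_sum]
      rw [sum_comm]
      exact sum_congr rfl fun l _ => sum_congr rfl fun x _ => by ring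
    have e2 : ∑ x, f x * avg act S g x = ∑ l, S l * ∑ x, f x * g (act l x) := by
      simp_rw [avg_apply, mul_sum]
      rw [sum_comm]
      exact sum_congr rfl fun l _ => sum_congr rfl fun x _ => by ring
    rw [e1, e2, ← flip]
    refine sum_congr rfl fun l _ => ?_
    rw [Sinv, act_inv]
    congr 1
    refine Fintype.sum_equiv (act l)⁻¹ _ _ fun x => ?_
    congr 2
    exact ((act l).apply_symm_apply x).symm
  · calc ∑ x, avg act S f x ^ 2 ≤ ∑ x, ∑ l, S l * f (act l x) ^ 2 := by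
          refine sum_le_sum fun x _ => ?_
          rw [avg_apply]
          have hcs := sum_mul_sq_le_sq_mul_sq univ (fun l => Real.sqrt (S l))
            (fun l => Real.sqrt (S l) * f (act l x))
          have e1 : ∑ l, Real.sqrt (S l) * (Real.sqrt (S l) * f (act l x)) =
              ∑ l, S l * f (act l x) := sum_congr rfl fun l _ => by
            rw [← mul_assoc, Real.mul_self_sqrt (S0 l)]
          have e2 : ∑ l, Real.sqrt (S l) ^ 2 = 1 := by
            rw [← S1]
            exact sum_congr rfl fun l _ => Real.sq_sqrt (S0 l)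
          have e3 : ∑ l, (Real.sqrt (S l) * f (act l x)) ^ 2 = ∑ l, S l * f (act l x) ^ 2 :=
            sum_congr rfl fun l _ => by rw [mul_pow, Real.sq_sqrt (S0 l)]
          rw [e1, e2, e3, one_mul] at hcs
          exact hcs
      _ = ∑ l, S l * ∑ x, f (act l x) ^ 2 := by
          rw [sum_comm]
          exact sum_congr rfl fun l _ => by rw [mul_sum]
      _ = ∑ l, S l * ∑ x, f x ^ 2 := by
          refine sum_congr rfl fun l _ => ?_
          congr 1
          exact Fintype.sum_equiv (act l) _ _ fun x => rfl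
      _ = ∑ x, f x ^ 2 := by rw [← sum_mul, S1, one_mul]
  · rw [avg_apply]
    exact sum_nonneg fun l _ => mul_nonneg (S0 l) (hf _)

/-- the energy in terms of displacements -/
lemma avg_energy {act : Λ → Equiv.Perm X} {S : Λ → ℝ} (S1 : ∑ l, S l = 1) (f : X → ℝ) :
    ∑ x, f x * avg act S f x = ∑ x, f x ^ 2 - 1 / 2 * ∑ l, S l * ∑ x, (f (act l x) - f x) ^ 2 := by
  have e1 : ∑ x, f x * avg act S f x = ∑ l, S l * ∑ x, f x * f (act l x) := by
    simp_rw [avg_apply, mul_sum]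
    rw [sum_comm]
    exact sum_congr rfl fun l _ => sum_congr rfl fun x _ => by ring
  have e2 : ∀ l, ∑ x, (f (act l x) - f x) ^ 2 = 2 * ∑ x, f x ^ 2 - 2 * ∑ x, f x * f (act l x) := by
    intro l
    have h : ∑ x, f (act l x) ^ 2 = ∑ x, f x ^ 2 := Fintype.sum_equiv (act l) _ _ fun x => rfl
    calc ∑ x, (f (act l x) - f x) ^ 2
        = ∑ x, f (act l x) ^ 2 + ∑ x, f x ^ 2 - 2 * ∑ x, f x * f (act l x) := by
          rw [mul_sum, ← sum_add_distrib, ← sum_sub_distrib]
          exact sum_congr rfl fun x _ => by ring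
      _ = _ := by rw [h]; ring
  have e3 : ∑ l, S l * ∑ x, (f (act l x) - f x) ^ 2 =
      2 * ∑ x, f x ^ 2 - 2 * ∑ l, S l * ∑ x, f x * f (act l x) := by
    have e4 : ∀ l, S l * ∑ x, (f (act l x) - f x) ^ 2 =
        S l * (2 * ∑ x, f x ^ 2) - 2 * (S l * ∑ x, f x * f (act l x)) := fun l => by
      rw [e2 l]
      ring
    rw [sum_congr rfl fun l _ => e4 l, sum_sub_distrib, ← sum_mul, S1, one_mul, ← mul_sum]
  rw [e1, e3]
  ring

/-- if every letter moves `f` by at most `ε` then `⟨f, P f⟩ ≥ 1 - ε² / 2` -/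
lemma avg_near {act : Λ → Equiv.Perm X} {S : Λ → ℝ} (S0 : ∀ l, 0 ≤ S l) (S1 : ∑ l, S l = 1)
    {f : X → ℝ} (hf : ∑ x, f x ^ 2 = 1) {e : ℝ} (he : ∀ l, ∑ x, (f (act l x) - f x) ^ 2 ≤ e) :
    1 - e / 2 ≤ ∑ x, f x * avg act S f x := by
  rw [avg_energy S1, hf]
  have : ∑ l, S l * ∑ x, (f (act l x) - f x) ^ 2 ≤ ∑ l, S l * e :=
    sum_le_sum fun l _ => mul_le_mul_of_nonneg_left (he l) (S0 l)
  rw [← sum_mul, S1, one_mul] at this
  linarith

/-- the position after the letters `w 0, w 1, ...` -/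
def run (act : Λ → Equiv.Perm X) : (m : ℕ) → (Fin m → Λ) → X → X
  | 0, _, x => x
  | m + 1, w, x => run act m (fun k => w k.succ) (act (w 0) x)

/-- powers of the average as sums over words -/
lemma avg_pow_apply (act : Λ → Equiv.Perm X) (S : Λ → ℝ) (m : ℕ) (f : X → ℝ) (x : X) :
    (avg act S ^ m) f x = ∑ w : Fin m → Λ, (∏ k, S (w k)) * f (run act m w x) := by
  induction m generalizing x with
  | zero => simp [run]
  | succ m ih =>
    have e1 : (avg act S ^ (m + 1)) f = avg act S ((avg act S ^ m) f) := by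
      rw [pow_succ', Module.End.mul_apply]
    rw [e1, avg_apply, ← (Fin.consEquiv fun _ => Λ).sum_comp, Fintype.sum_prod_type]
    refine sum_congr rfl fun l _ => ?_
    rw [ih, mul_sum]
    refine sum_congr rfl fun w _ => ?_
    rw [Fin.prod_univ_succ]
    simp only [Fin.consEquiv_apply, Fin.cons_zero, Fin.cons_succ, run]
    ring

end avg

end Pool.Agent.Helper50.FS
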