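import Mathlib

/-!
# The predictor lemma (entropy lemma of the pair trick, MP_75608d_al)

`U : Ω → A → B` is a random function on the finite probability space `(Ω, μ)`, taking at most
`exp h` values.  For every `1 ≤ k ≤ |A|` there is `D ⊆ A`, `|D| = k`, and for `u : A → B` and
`a : A` a list `S u a` of at most `K` predicted values, depending only on the restriction of `u` to
`D`, such that the expected number of `a ∉ D` whose value is not predicted is at most
`(|A| - k) / k * (h / log K)`.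
-/

set_option autoImplicit false
set_option linter.unusedSectionVars false

namespace Pool.Agent.Helper50.FS

open Finset

variable {Ω A B : Type*} [Fintype Ω] [Fintype A] [DecidableEq A] [Fintype B] [DecidableEq B]

/-- `μ(U = u on D)` -/
noncomputable def pD (μ : Ω → ℝ) (U : Ω → A → B) (D : Finset A) (u : A → B) : ℝ :=
  ∑ ω, if (∀ a ∈ D, U ω a = u a) then μ ω else 0

/-- `μ(U = u on D and U a = b)` -/
noncomputable def pDa (μ : Ω → ℝ) (U : Ω → A → B) (D : Finset A) (u : A → B) (a : A) (b : B) : ℝ :=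
  ∑ ω, if (∀ a ∈ D, U ω a = u a) ∧ U ω a = b then μ ω else 0

/-- the entropy of the restriction of `U` to `D` -/
noncomputable def hD (μ : Ω → ℝ) (U : Ω → A → B) (D : Finset A) : ℝ :=
  ∑ ω, μ ω * (-Real.log (pD μ U D (U ω)))

/-- the predicted values at `a`, given the values on `D` -/
noncomputable def predS (μ : Ω → ℝ) (U : Ω → A → B) (D : Finset A) (K : ℝ) (u : A → B) (a : A) :
    Finset B :=
  univ.filter fun b => 0 < pDa μ U D u a b ∧ pD μ U D u ≤ K * pDa μ U D u a b

section
variable {μ : Ω → ℝ} {U : Ω → A → B}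

lemma pD_nonneg (h0 : ∀ ω, 0 ≤ μ ω) (D : Finset A) (u : A → B) : 0 ≤ pD μ U D u :=
  sum_nonneg fun ω _ => by split_ifs; exacts [h0 ω, le_rfl]

lemma pDa_nonneg (h0 : ∀ ω, 0 ≤ μ ω) (D : Finset A) (u : A → B) (a : A) (b : B) :
    0 ≤ pDa μ U D u a b :=
  sum_nonneg fun ω _ => by split_ifs; exacts [h0 ω, le_rfl]

lemma pD_congr {D : Finset A} {u v : A → B} (h : ∀ a ∈ D, u a = v a) :
    pD μ U D u = pD μ U D v := by
  unfold pD
  refine sum_congr rfl fun ω _ => ?_
  have : (∀ a ∈ D, U ω a = u a) ↔ (∀ a ∈ D, U ω a = v a) :=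
    forall₂_congr fun a ha => by rw [h a ha]
  simp only [this]

lemma pDa_congr {D : Finset A} {u v : A → B} (h : ∀ a ∈ D, u a = v a) (a : A) (b : B) :
    pDa μ U D u a b = pDa μ U D v a b := by
  unfold pDa
  refine sum_congr rfl fun ω _ => ?_
  have : (∀ a ∈ D, U ω a = u a) ↔ (∀ a ∈ D, U ω a = v a) :=
    forall₂_congr fun a ha => by rw [h a ha]
  simp only [this]

lemma pDa_self (D : Finset A) (u : A → B) (a : A) :
    pDa μ U D u a (u a) = pD μ U (insert a D) u := by
  unfold pDa pD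
  refine sum_congr rfl fun ω _ => ?_
  have : ((∀ a ∈ D, U ω a = u a) ∧ U ω a = u a) ↔ (∀ a' ∈ insert a D, U ω a' = u a') := by
    rw [forall_mem_insert]
    tauto
  simp only [this]

lemma sum_pDa (D : Finset A) (u : A → B) (a : A) : ∑ b, pDa μ U D u a b = pD μ U D u := by
  unfold pDa pD
  rw [sum_comm]
  refine sum_congr rfl fun ω _ => ?_
  by_cases h : ∀ a ∈ D, U ω a = u a
  · rw [if_pos h, sum_eq_single (U ω a)]
    · rw [if_pos ⟨h, rfl⟩]
    · intro b _ hb
      rw [if_neg]
      rintro ⟨-, h2⟩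
      exact hb h2.symm
    · intro h2
      exact absurd (mem_univ _) h2
  · rw [if_neg h]
    refine sum_eq_zero fun b _ => ?_
    rw [if_neg]
    rintro ⟨h1, -⟩
    exact h h1

lemma pD_mono (h0 : ∀ ω, 0 ≤ μ ω) {D D' : Finset A} (h : D ⊆ D') (u : A → B) :
    pD μ U D' u ≤ pD μ U D u := by
  refine sum_le_sum fun ω _ => ?_
  by_cases h1 : ∀ a ∈ D', U ω a = u a
  · rw [if_pos h1, if_pos fun a ha => h1 a (h ha)]
  · rw [if_neg h1]
    split_ifs
    exacts [h0 ω, le_rfl]

lemma pD_pos (h0 : ∀ ω, 0 ≤ μ ω) (D : Finset A) {ω : Ω} (hω : 0 < μ ω) :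
    0 < pD μ U D (U ω) := by
  refine lt_of_lt_of_le hω ?_
  have := single_le_sum (f := fun ω' => if (∀ a ∈ D, U ω' a = U ω a) then μ ω' else 0)
    (fun ω' _ => by split_ifs; exacts [h0 ω', le_rfl]) (mem_univ ω)
  rw [if_pos fun a _ => rfl] at this
  exact this

lemma pD_le_one (h0 : ∀ ω, 0 ≤ μ ω) (h1 : ∑ ω, μ ω = 1) (D : Finset A) (u : A → B) :
    pD μ U D u ≤ 1 := by
  rw [← h1]
  refine sum_le_sum fun ω _ => ?_
  split_ifs
  exacts [le_rfl, h0 ω]

lemma card_predS (h0 : ∀ ω, 0 ≤ μ ω) (D : Finset A) {K : ℝ} (hK : 0 ≤ K) (u : A → B) (a : A) :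
    ((predS μ U D K u a).card : ℝ) ≤ K := by
  by_cases hne : (predS μ U D K u a).Nonempty
  · obtain ⟨b, hb⟩ := hne
    have hb' := (mem_filter.1 hb).2
    have hp : 0 < pD μ U D u := by
      rw [← sum_pDa D u a]
      exact lt_of_lt_of_le hb'.1 (single_le_sum (f := fun b => pDa μ U D u a b)
        (fun b _ => pDa_nonneg h0 D u a b) (mem_univ b))
    have h2 : ((predS μ U D K u a).card : ℝ) * pD μ U D u ≤ K * pD μ U D u := by
      calc ((predS μ U D K u a).card : ℝ) * pD μ U D u
          = ∑ b ∈ predS μ U D K u a, pD μ U D u := by rw [sum_const, nsmul_eq_mul]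
        _ ≤ ∑ b ∈ predS μ U D K u a, K * pDa μ U D u a b :=
          sum_le_sum fun b hb => (mem_filter.1 hb).2.2
        _ = K * ∑ b ∈ predS μ U D K u a, pDa μ U D u a b := by rw [mul_sum]
        _ ≤ K * ∑ b, pDa μ U D u a b := by
          refine mul_le_mul_of_nonneg_left (sum_le_sum_of_subset_of_nonneg (subset_univ _)
            fun b _ _ => pDa_nonneg h0 D u a b) hK
        _ = K * pD μ U D u := by rw [sum_pDa]
    exact le_of_mul_le_mul_right h2 hp
  · rw [not_nonempty_iff_eq_empty.1 hne]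
    simpa using hK

lemma predS_congr (D : Finset A) (K : ℝ) {u v : A → B} (h : ∀ a ∈ D, u a = v a) (a : A) :
    predS μ U D K u a = predS μ U D K v a := by
  unfold predS
  refine filter_congr fun b _ => ?_
  rw [pD_congr h, pDa_congr h]

/-- Jensen: `∑ μ log x ≤ log (∑ μ x)`, in the form needed. -/
lemma sum_mul_log_le (h0 : ∀ ω, 0 ≤ μ ω) (h1 : ∑ ω, μ ω = 1) {x : Ω → ℝ}
    (hx : ∀ ω, 0 < μ ω → 0 < x ω) {C : ℝ} (hC : 0 < C) (hs : ∑ ω, μ ω * x ω ≤ C) :
    ∑ ω, μ ω * Real.log (x ω) ≤ Real.log C := by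
  have key : ∀ ω, μ ω * Real.log (x ω) ≤ μ ω * Real.log C + (μ ω * x ω / C - μ ω) := by
    intro ω
    rcases (h0 ω).eq_or_lt with h | h
    · rw [← h]; simp
    · have hxω := hx ω h
      have := Real.log_le_sub_one_of_pos (div_pos hxω hC)
      rw [Real.log_div hxω.ne' hC.ne'] at this
      have h2 : Real.log (x ω) ≤ Real.log C + (x ω / C - 1) := by linarith
      calc μ ω * Real.log (x ω) ≤ μ ω * (Real.log C + (x ω / C - 1)) :=
            mul_le_mul_of_nonneg_left h2 h.le
        _ = _ := by ring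
  calc ∑ ω, μ ω * Real.log (x ω) ≤ ∑ ω, (μ ω * Real.log C + (μ ω * x ω / C - μ ω)) :=
        sum_le_sum fun ω _ => key ω
    _ = Real.log C + ((∑ ω, μ ω * x ω) / C - 1) := by
        rw [sum_add_distrib, sum_sub_distrib, ← sum_mul, ← sum_div, h1]
        ring
    _ ≤ Real.log C + (1 - 1) := by
        have : (∑ ω, μ ω * x ω) / C ≤ 1 := (div_le_one hC).2 hs
        linarith
    _ = Real.log C := by ring

/-- regrouping a sum over `Ω` by the values of `U` -/
lemma sum_by_value (F : (A → B) → ℝ) :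
    ∑ ω, μ ω * F (U ω) = ∑ u : A → B, pD μ U univ u * F u := by
  unfold pD
  simp_rw [sum_mul]
  rw [sum_comm]
  refine sum_congr rfl fun ω _ => ?_
  rw [sum_eq_single (U ω)]
  · simp
  · intro u _ hu
    rw [if_neg, zero_mul]
    intro h
    exact hu (funext fun a => (h a (mem_univ a)).symm)
  · intro h
    exact absurd (mem_univ _) h

lemma hD_nonneg (h0 : ∀ ω, 0 ≤ μ ω) (h1 : ∑ ω, μ ω = 1) (D : Finset A) : 0 ≤ hD μ U D :=
  sum_nonneg fun ω _ => mul_nonneg (h0 ω) (by
    have := Real.log_nonpos (pD_nonneg (U := U) h0 D (U ω)) (pD_le_one (U := U) h0 h1 D (U ω))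
    linarith)

lemma hD_mono (h0 : ∀ ω, 0 ≤ μ ω) {D D' : Finset A} (h : D ⊆ D') : hD μ U D ≤ hD μ U D' := by
  refine sum_le_sum fun ω _ => ?_
  rcases (h0 ω).eq_or_lt with h2 | h2
  · rw [← h2]; simp
  · refine mul_le_mul_of_nonneg_left (neg_le_neg ?_) h2.le
    exact Real.log_le_log (pD_pos h0 D' h2) (pD_mono h0 h (U ω))

/-- the entropy is at most the logarithm of the number of values -/
lemma hD_le (h0 : ∀ ω, 0 ≤ μ ω) (h1 : ∑ ω, μ ω = 1) (D : Finset A) {h : ℝ}
    (hh : (((univ.filter fun ω => μ ω ≠ 0).image U).card : ℝ) ≤ Real.exp h) :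
    hD μ U D ≤ h := by
  refine (hD_mono h0 (subset_univ D)).trans ?_
  have e : hD μ U univ = ∑ ω, μ ω * Real.log ((pD μ U univ (U ω))⁻¹) := by
    unfold hD
    simp only [Real.log_inv]
  rw [e]
  refine (sum_mul_log_le h0 h1 (fun ω hω => inv_pos.2 (pD_pos h0 univ hω)) (Real.exp_pos h) ?_).trans
    (le_of_eq (Real.log_exp h))
  rw [sum_by_value (μ := μ) (U := U) (fun u => (pD μ U univ u)⁻¹)]
  refine le_trans ?_ hh
  rw [card_eq_sum_ones, Nat.cast_sum]
  calc ∑ u, pD μ U univ u * (pD μ U univ u)⁻¹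
      = ∑ u ∈ (univ.filter fun ω => μ ω ≠ 0).image U, pD μ U univ u * (pD μ U univ u)⁻¹ := by
        symm
        refine sum_subset (subset_univ _) fun u _ hu => ?_
        have : pD μ U univ u = 0 := by
          refine sum_eq_zero fun ω _ => ?_
          split_ifs with h2
          · by_contra h3
            exact hu (mem_image.2 ⟨ω, mem_filter.2 ⟨mem_univ _, h3⟩,
              funext fun a => h2 a (mem_univ a)⟩)
          · rfl
        rw [this, zero_mul]
    _ ≤ ∑ u ∈ (univ.filter fun ω => μ ω ≠ 0).image U, ((1 : ℕ) : ℝ) := by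
        refine sum_le_sum fun u _ => ?_
        rw [Nat.cast_one]
        exact mul_inv_le_one

/-- conditioning reduces entropy -/
lemma hD_submod (h0 : ∀ ω, 0 ≤ μ ω) (h1 : ∑ ω, μ ω = 1) {D D' : Finset A} (h : D ⊆ D') (a : A) :
    hD μ U (insert a D') - hD μ U D' ≤ hD μ U (insert a D) - hD μ U D := by
  have key : ∑ ω, μ ω * Real.log (pD μ U (insert a D) (U ω) * pD μ U D' (U ω) /
      (pD μ U (insert a D') (U ω) * pD μ U D (U ω))) ≤ Real.log 1 := by
    refine sum_mul_log_le h0 h1 (fun ω hω => ?_) one_pos ?_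
    · exact div_pos (mul_pos (pD_pos h0 _ hω) (pD_pos h0 _ hω))
        (mul_pos (pD_pos h0 _ hω) (pD_pos h0 _ hω))
    · -- `r b = μ(U a = b | U_D)`, `s b = μ(U = u on D', U a = b)`
      set r : (A → B) → B → ℝ := fun u b => pDa μ U D u a b / pD μ U D u with hr
      set s : (A → B) → B → ℝ := fun u b => pDa μ U D' u a b with hs
      have r0 : ∀ u b, 0 ≤ r u b := fun u b =>
        div_nonneg (pDa_nonneg h0 D u a b) (pD_nonneg h0 D u)
      have e1 : ∀ ω, μ ω * (pD μ U (insert a D) (U ω) * pD μ U D' (U ω) /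
          (pD μ U (insert a D') (U ω) * pD μ U D (U ω))) =
          ∑ ω', μ ω' * (if (∀ x ∈ D', U ω x = U ω' x) then
            μ ω * (r (U ω') (U ω a) / s (U ω') (U ω a)) else 0) := by
        intro ω
        have e2 : ∀ ω', μ ω' * (if (∀ x ∈ D', U ω x = U ω' x) then
            μ ω * (r (U ω') (U ω a) / s (U ω') (U ω a)) else 0) =
            (if (∀ x ∈ D', U ω' x = U ω x) then μ ω' else 0) *
              (μ ω * (r (U ω) (U ω a) / s (U ω) (U ω a))) := by
          intro ω'
          by_cases h3 : ∀ x ∈ D', U ω x = U ω' x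
          · rw [if_pos h3, if_pos fun x hx => (h3 x hx).symm]
            simp only [hr, hs]
            rw [pDa_congr h3 a, pDa_congr (fun x hx => h3 x (h hx)) a,
              pD_congr (fun x hx => h3 x (h hx))]
          · rw [if_neg h3, if_neg fun h4 => h3 fun x hx => (h4 x hx).symm]
            ring
        rw [sum_congr rfl fun ω' _ => e2 ω', ← sum_mul]
        change _ = pD μ U D' (U ω) * _
        simp only [hr, hs]
        rw [pDa_self, pDa_self]
        ring
      calc ∑ ω, μ ω * (pD μ U (insert a D) (U ω) * pD μ U D' (U ω) /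
          (pD μ U (insert a D') (U ω) * pD μ U D (U ω)))
          = ∑ ω, ∑ ω', μ ω' * (if (∀ x ∈ D', U ω x = U ω' x) then
            μ ω * (r (U ω') (U ω a) / s (U ω') (U ω a)) else 0) :=
            sum_congr rfl fun ω _ => e1 ω
        _ = ∑ ω', μ ω' * ∑ ω, (if (∀ x ∈ D', U ω x = U ω' x) then
            μ ω * (r (U ω') (U ω a) / s (U ω') (U ω a)) else 0) := by
            rw [sum_comm]
            exact sum_congr rfl fun ω' _ => by rw [mul_sum]
        _ ≤ ∑ ω', μ ω' * 1 := by
            refine sum_le_sum fun ω' _ => mul_le_mul_of_nonneg_left ?_ (h0 ω')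
            have e3 : ∀ ω, (if (∀ x ∈ D', U ω x = U ω' x) then
                μ ω * (r (U ω') (U ω a) / s (U ω') (U ω a)) else 0) =
                ∑ b, (if (∀ x ∈ D', U ω x = U ω' x) ∧ U ω a = b then μ ω else 0) *
                  (r (U ω') b / s (U ω') b) := by
              intro ω
              rw [sum_eq_single (U ω a)]
              · by_cases h3 : ∀ x ∈ D', U ω x = U ω' x
                · rw [if_pos h3, if_pos ⟨h3, rfl⟩]
                · rw [if_neg h3, if_neg fun h4 => h3 h4.1, zero_mul]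
              · intro b _ hb
                rw [if_neg fun h4 => hb h4.2.symm, zero_mul]
              · intro h3
                exact absurd (mem_univ _) h3
            rw [sum_congr rfl fun ω _ => e3 ω, sum_comm]
            calc ∑ b, ∑ ω, (if (∀ x ∈ D', U ω x = U ω' x) ∧ U ω a = b then μ ω else 0) *
                  (r (U ω') b / s (U ω') b)
                = ∑ b, s (U ω') b * (r (U ω') b / s (U ω') b) :=
                  sum_congr rfl fun b _ => by rw [← sum_mul]; rfl
              _ ≤ ∑ b, r (U ω') b := by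
                  refine sum_le_sum fun b _ => ?_
                  by_cases h3 : s (U ω') b = 0
                  · rw [h3, zero_mul]; exact r0 _ _
                  · rw [mul_div_cancel₀ _ h3]
              _ ≤ 1 := by
                  simp only [hr]
                  rw [← sum_div, sum_pDa]
                  exact div_self_le_one _
        _ = 1 := by simp only [mul_one]; exact h1
  rw [Real.log_one] at key
  have e : ∑ ω, μ ω * Real.log (pD μ U (insert a D) (U ω) * pD μ U D' (U ω) /
      (pD μ U (insert a D') (U ω) * pD μ U D (U ω))) =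
      (hD μ U (insert a D') - hD μ U D') - (hD μ U (insert a D) - hD μ U D) := by
    unfold hD
    rw [← sum_sub_distrib, ← sum_sub_distrib, ← sum_sub_distrib]
    refine sum_congr rfl fun ω _ => ?_
    rcases (h0 ω).eq_or_lt with h2 | h2
    · rw [← h2]; simp
    · rw [Real.log_div (mul_pos (pD_pos h0 _ h2) (pD_pos h0 _ h2)).ne'
        (mul_pos (pD_pos h0 _ h2) (pD_pos h0 _ h2)).ne',
        Real.log_mul (pD_pos h0 _ h2).ne' (pD_pos h0 _ h2).ne',
        Real.log_mul (pD_pos h0 _ h2).ne' (pD_pos h0 _ h2).ne']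
      ring
  linarith

/-- greedy choice of `D` -/
lemma exists_greedy (h0 : ∀ ω, 0 ≤ μ ω) (h1 : ∑ ω, μ ω = 1) (k : ℕ) (hk : k ≤ Fintype.card A) :
    ∃ D : Finset A, D.card = k ∧
      ∀ a, a ∉ D → (k : ℝ) * (hD μ U (insert a D) - hD μ U D) ≤ hD μ U D := by
  induction k with
  | zero =>
    refine ⟨∅, card_empty, fun a _ => ?_⟩
    rw [Nat.cast_zero, zero_mul]
    exact hD_nonneg h0 h1 _
  | succ k ih =>
    obtain ⟨D, hDk, hg⟩ := ih (Nat.le_of_succ_le hk)
    have hne : (univ \ D).Nonempty := by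
      rw [← card_pos, card_sdiff_of_subset (subset_univ D), card_univ, hDk]
      omega
    obtain ⟨b, hb, hmax⟩ := exists_max_image (univ \ D)
      (fun a => hD μ U (insert a D) - hD μ U D) hne
    have hbD : b ∉ D := (mem_sdiff.1 hb).2
    refine ⟨insert b D, by rw [card_insert_of_notMem hbD, hDk], fun a ha => ?_⟩
    have haD : a ∉ D := fun h => ha (mem_insert_of_mem h)
    have h2 := hD_submod (μ := μ) (U := U) h0 h1 (subset_insert b D) a
    have h3 := hmax a (mem_sdiff.2 ⟨mem_univ a, haD⟩)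
    have h4 := hg a haD
    have h5 : 0 ≤ (k : ℝ) := Nat.cast_nonneg k
    push_cast
    have h6 := mul_le_mul_of_nonneg_left h2 h5
    have h7 : hD μ U (insert b D) = hD μ U D + (hD μ U (insert b D) - hD μ U D) := by ring
    nlinarith

/-- the expected number of values which are not predicted -/
lemma log_mul_le (h0 : ∀ ω, 0 ≤ μ ω) {K : ℝ} (hK : 1 ≤ K) (D : Finset A) (a : A) :
    Real.log K * ∑ ω, (if U ω a ∈ predS μ U D K (U ω) a then 0 else μ ω) ≤
      hD μ U (insert a D) - hD μ U D := by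
  unfold hD
  rw [mul_sum, ← sum_sub_distrib]
  refine sum_le_sum fun ω _ => ?_
  rcases (h0 ω).eq_or_lt with h2 | h2
  · rw [← h2]; simp
  · have p1 := pD_pos (μ := μ) (U := U) h0 D h2
    have p2 := pD_pos (μ := μ) (U := U) h0 (insert a D) h2
    have p3 := pD_mono (μ := μ) (U := U) h0 (subset_insert a D) (U ω)
    have e : μ ω * -Real.log (pD μ U (insert a D) (U ω)) - μ ω * -Real.log (pD μ U D (U ω)) =
        μ ω * Real.log (pD μ U D (U ω) / pD μ U (insert a D) (U ω)) := by
      rw [Real.log_div p1.ne' p2.ne']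
      ring
    rw [e]
    split_ifs with h3
    · rw [mul_zero]
      exact mul_nonneg h2.le (Real.log_nonneg ((one_le_div p2).2 p3))
    · rw [mul_comm]
      refine mul_le_mul_of_nonneg_left (Real.log_le_log (by linarith) ?_) h2.le
      rw [le_div_iff₀ p2]
      by_contra h4
      refine h3 (mem_filter.2 ⟨mem_univ _, ?_, ?_⟩)
      · rw [pDa_self]; exact p2
      · rw [pDa_self]
        exact (not_le.1 h4).le

end

/-- **Predictor lemma.**  `U` is a random function `A → B` on `(Ω, μ)` with at most `exp h` values.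
For every `1 ≤ k ≤ |A|` there are `D` of size `k` and lists `S u a` of at most `K` values, which depend
only on `u` restricted to `D`, such that
`log K * ∑_{a ∉ D} μ(U a ∉ S U a) ≤ (|A| - k) / k * h`. -/
theorem predictor (μ : Ω → ℝ) (U : Ω → A → B) (h0 : ∀ ω, 0 ≤ μ ω) (h1 : ∑ ω, μ ω = 1)
    {h K : ℝ} (hK : 1 ≤ K)
    (hh : (((univ.filter fun ω => μ ω ≠ 0).image U).card : ℝ) ≤ Real.exp h)
    (k : ℕ) (hk1 : 1 ≤ k) (hk : k ≤ Fintype.card A) :
    ∃ (D : Finset A) (S : (A → B) → A → Finset B), D.card = k ∧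
      (∀ u a, ((S u a).card : ℝ) ≤ K) ∧
      (∀ u v : A → B, (∀ x ∈ D, u x = v x) → ∀ a, S u a = S v a) ∧
      Real.log K * ∑ a ∈ univ \ D, ∑ ω, (if U ω a ∈ S (U ω) a then 0 else μ ω) ≤
        ((Fintype.card A : ℝ) - k) / k * h := by
  obtain ⟨D, hDk, hD'⟩ := exists_greedy (μ := μ) (U := U) h0 h1 k hk
  refine ⟨D, predS μ U D K, hDk, fun u a => card_predS h0 D (by linarith) u a,
    fun u v huv a => predS_congr D K huv a, ?_⟩
  have hk0 : (0 : ℝ) < k := by exact_mod_cast hk1
  have h2 : hD μ U D ≤ h := hD_le h0 h1 D hh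
  calc Real.log K * ∑ a ∈ univ \ D, ∑ ω, (if U ω a ∈ predS μ U D K (U ω) a then 0 else μ ω)
      = ∑ a ∈ univ \ D, Real.log K * ∑ ω, (if U ω a ∈ predS μ U D K (U ω) a then 0 else μ ω) := by
        rw [mul_sum]
    _ ≤ ∑ a ∈ univ \ D, h / k := by
        refine sum_le_sum fun a ha => (log_mul_le h0 hK D a).trans ?_
        rw [le_div_iff₀ hk0]
        have := hD' a (mem_sdiff.1 ha).2
        linarith
    _ = ((Fintype.card A : ℝ) - k) / k * h := by
        rw [sum_const, nsmul_eq_mul, card_sdiff_of_subset (subset_univ D), card_univ, hDk,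
          Nat.cast_sub hk]
        ring

end Pool.Agent.Helper50.FS
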