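import Pool.Agent.Helper86.FS.StartGoals
import Pool.Agent.Helper50.FS.LemmaT
import Pool.Agent.Helper50.FS.Predictor

/-! Project FS (MP_75608d_al), part START: the goals LT and PRED. -/

set_option autoImplicit false

namespace Pool.Agent.Helper50.FS

open Equiv Finset Pool.Agent.Helper3.AK Pool.Agent.Helper86.FS

section lt
variable {n k : ℕ} {Ω : Type} [Fintype Ω] (z : Fin k → Alt n) (a : Perm (Fin n) → Ω → Ω)

/-- the action as permutations -/
def actP (h1 : ∀ ω, a 1 ω = ω) (hm : ∀ g h ω, a (g * h) ω = a g (a h ω)) (g : Perm (Fin n)) :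
    Equiv.Perm Ω where
  toFun := a g
  invFun := a g⁻¹
  left_inv ω := by rw [← hm, inv_mul_cancel, h1]
  right_inv ω := by rw [← hm, mul_inv_cancel, h1]

/-- letters of the lazy walk -/
def lett' (h1 : ∀ ω, a 1 ω = ω) (hm : ∀ g h ω, a (g * h) ω = a g (a h ω)) :
    Option (Fin k × Bool) → Equiv.Perm Ω
  | none => 1
  | some (i, false) => actP a h1 hm (z i : Perm (Fin n))
  | some (i, true) => (actP a h1 hm (z i : Perm (Fin n)))⁻¹

/-- weights of the letters -/
noncomputable def wt (k : ℕ) : Option (Fin k × Bool) → ℝ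
  | none => 1 / 2
  | some _ => (4 * (k : ℝ))⁻¹

/-- inverse letters -/
def invl {k : ℕ} : Option (Fin k × Bool) → Option (Fin k × Bool)
  | none => none
  | some (i, s) => some (i, !s)

variable {z a}

lemma avg_lett' (h1 : ∀ ω, a 1 ω = ω) (hm : ∀ g h ω, a (g * h) ω = a g (a h ω)) (φ : Ω → ℝ)
    (ω : Ω) : avg (lett' z a h1 hm) (wt k) φ ω = 1 / 2 * φ ω + (4 * (k : ℝ))⁻¹ *
      ∑ i, (φ (a (z i : Perm (Fin n)) ω) + φ (a ((z i : Perm (Fin n))⁻¹) ω)) := by
  rw [avg_apply, Fintype.sum_option, Fintype.sum_prod_type, mul_sum]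
  congr 1
  refine sum_congr rfl fun i _ => ?_
  rw [Fintype.sum_bool]
  change (4 * (k : ℝ))⁻¹ * φ (a ((z i : Perm (Fin n))⁻¹) ω) +
    (4 * (k : ℝ))⁻¹ * φ (a (z i : Perm (Fin n)) ω) = _
  ring

lemma isSA_lett' (hk : 0 < k) (h1 : ∀ ω, a 1 ω = ω) (hm : ∀ g h ω, a (g * h) ω = a g (a h ω)) :
    IsSA (avg (lett' z a h1 hm) (wt k)) := by
  refine isSA_avg invl ?_ ?_ ?_ ?_ ?_
  · rintro (_ | ⟨i, s⟩)
    · rfl
    · simp [invl]
  · rintro (_ | ⟨i, _ | _⟩)
    · exact inv_one.symm
    · rfl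
    · exact (inv_inv _).symm
  · rintro (_ | ⟨i, s⟩)
    · norm_num [wt]
    · exact inv_nonneg.2 (by positivity)
  · rw [Fintype.sum_option]
    simp only [wt, sum_const, card_univ, Fintype.card_prod, Fintype.card_fin, Fintype.card_bool,
      nsmul_eq_mul]
    have : (k : ℝ) ≠ 0 := by exact_mod_cast hk.ne'
    push_cast
    field_simp
    norm_num
  · rintro (_ | ⟨i, s⟩) <;> rfl

lemma avg_pow_lazy (h1 : ∀ ω, a 1 ω = ω) (hm : ∀ g h ω, a (g * h) ω = a g (a h ω)) (φ : Ω → ℝ)
    (J : ℕ) (ω : Ω) :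
    (avg (lett' z a h1 hm) (wt k) ^ J) φ ω = ∑ w, lazyLaw z J w * φ (a w ω) := by
  induction J generalizing ω with
  | zero =>
    simp only [pow_zero, Module.End.one_apply, lazyLaw]
    rw [sum_eq_single 1]
    · rw [if_pos rfl, h1, one_mul]
    · intro w _ hw
      rw [if_neg hw, zero_mul]
    · intro h
      exact absurd (mem_univ _) h
  | succ J ih =>
    have e1 : (avg (lett' z a h1 hm) (wt k) ^ (J + 1)) φ =
        avg (lett' z a h1 hm) (wt k) ((avg (lett' z a h1 hm) (wt k) ^ J) φ) := by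
      rw [pow_succ', Module.End.mul_apply]
    rw [e1, avg_lett', ih]
    have e2 : ∀ h : Perm (Fin n), ∑ w, lazyLaw z J (w * h⁻¹) * φ (a w ω) =
        ∑ w, lazyLaw z J w * φ (a w (a h ω)) := by
      intro h
      refine (Fintype.sum_equiv (Equiv.mulRight h) _ _ fun w => ?_).symm
      change lazyLaw z J w * φ (a w (a h ω)) = lazyLaw z J (w * h * h⁻¹) * φ (a (w * h) ω)
      rw [mul_inv_cancel_right, hm]
    have e3 : ∀ i, (avg (lett' z a h1 hm) (wt k) ^ J) φ (a (z i : Perm (Fin n)) ω) +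
        (avg (lett' z a h1 hm) (wt k) ^ J) φ (a ((z i : Perm (Fin n))⁻¹) ω) =
        ∑ w, (lazyLaw z J (w * (z i : Perm (Fin n))⁻¹) + lazyLaw z J (w * (z i : Perm (Fin n)))) *
          φ (a w ω) := by
      intro i
      have e4 := e2 ((z i : Perm (Fin n))⁻¹)
      rw [inv_inv] at e4
      simp_rw [add_mul]
      rw [sum_add_distrib, e2, e4, ih, ih]
    have e5 : ∑ w, lazyLaw z (J + 1) w * φ (a w ω) =
        1 / 2 * ∑ w, lazyLaw z J w * φ (a w ω) + (4 * (k : ℝ))⁻¹ * ∑ i, ∑ w,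
          (lazyLaw z J (w * (z i : Perm (Fin n))⁻¹) + lazyLaw z J (w * (z i : Perm (Fin n)))) *
            φ (a w ω) := by
      rw [sum_comm, mul_sum, mul_sum, ← sum_add_distrib]
      refine sum_congr rfl fun w _ => ?_
      rw [← sum_mul]
      simp only [lazyLaw]
      ring
    rw [sum_congr rfl fun i _ => e3 i, e5]

/-- **LT** -/
theorem lt : LTStmt := by
  intro n k z hk Ω _ _ a h1 hm F hF g hg1 hz E c i j hij hE
  have hP := isSA_lett' (z := z) (a := a) hk h1 hm
  have hk0 : (0 : ℝ) < k := by exact_mod_cast hk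
  -- each generator and its inverse
  have hinv : ∀ i, 1 - g ≤ ∑ ω, F ω * F (a ((z i : Perm (Fin n))⁻¹) ω) := by
    intro i
    refine (hz i).trans (le_of_eq ?_)
    refine Fintype.sum_equiv (actP a h1 hm (z i : Perm (Fin n))) _ _ fun ω => ?_
    change F ω * F (a (z i : Perm (Fin n)) ω) =
      F (a (z i : Perm (Fin n)) ω) * F (a ((z i : Perm (Fin n))⁻¹) (a (z i : Perm (Fin n)) ω))
    rw [← hm, inv_mul_cancel, h1, mul_comm]
  -- `g` is nonnegative
  have g0 : 0 ≤ g := by
    have h2 := sum_mul_sq_le_sq_mul_sq univ F (fun ω => F (a (z ⟨0, hk⟩ : Perm (Fin n)) ω))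
    have h3 : ∑ ω, F (a (z ⟨0, hk⟩ : Perm (Fin n)) ω) ^ 2 = 1 := by
      rw [← hF]
      exact Fintype.sum_equiv (actP a h1 hm (z ⟨0, hk⟩ : Perm (Fin n))) _ _ fun ω => rfl
    rw [hF, h3, one_mul] at h2
    have h4 := hz ⟨0, hk⟩
    have h5 : ∑ ω, F ω * F (a (z ⟨0, hk⟩ : Perm (Fin n)) ω) ≤ 1 := by
      nlinarith [sq_nonneg (∑ ω, F ω * F (a (z ⟨0, hk⟩ : Perm (Fin n)) ω) - 1)]
    linarith
  have hen : 1 - g ≤ ∑ ω, F ω * avg (lett' z a h1 hm) (wt k) F ω := by
    have e1 : ∑ ω, F ω * avg (lett' z a h1 hm) (wt k) F ω = 1 / 2 + (4 * (k : ℝ))⁻¹ *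
        ∑ i, (∑ ω, F ω * F (a (z i : Perm (Fin n)) ω) +
          ∑ ω, F ω * F (a ((z i : Perm (Fin n))⁻¹) ω)) := by
      have e2 : ∀ ω, F ω * avg (lett' z a h1 hm) (wt k) F ω = 1 / 2 * F ω ^ 2 + (4 * (k : ℝ))⁻¹ *
          ∑ i, (F ω * F (a (z i : Perm (Fin n)) ω) +
            F ω * F (a ((z i : Perm (Fin n))⁻¹) ω)) := by
        intro ω
        rw [avg_lett']
        simp_rw [← mul_add]
        rw [← mul_sum]
        ring
      rw [sum_congr rfl fun ω _ => e2 ω, sum_add_distrib, ← mul_sum, hF, ← mul_sum, sum_comm,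
        mul_one]
      congr 2
      exact sum_congr rfl fun i _ => sum_add_distrib
    rw [e1]
    have e3 : ∑ i : Fin k, ((1 - g) + (1 - g)) ≤ ∑ i, (∑ ω, F ω * F (a (z i : Perm (Fin n)) ω) +
          ∑ ω, F ω * F (a ((z i : Perm (Fin n))⁻¹) ω)) :=
      sum_le_sum fun i _ => add_le_add (hz i) (hinv i)
    rw [sum_const, card_univ, Fintype.card_fin, nsmul_eq_mul] at e3
    have e4 := mul_le_mul_of_nonneg_left e3 (inv_nonneg.2 (by positivity : (0 : ℝ) ≤ 4 * k))
    have e5 : (4 * (k : ℝ))⁻¹ * (k * ((1 - g) + (1 - g))) = (1 - g) / 2 := by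
      field_simp
      ring
    rw [e5] at e4
    linarith
  refine lemmaT hP E i j hij (fun x => ?_) hF hg1 hen
  rw [avg_pow_lazy]
  exact hE x

end lt

/-- **PRED** -/
theorem pred : PREDStmt := by
  classical
  intro b m Ω _ P hP hm hb u h σ hh hσ
  have hcard : Fintype.card (Ix b m) = m * (b * m) := by
    simp [Ix, Fintype.card_prod]
  have hA : 1 ≤ Fintype.card (Ix b m) := by
    rw [hcard]
    exact Nat.one_le_iff_ne_zero.2 (by positivity)
  set A := Fintype.card (Ix b m) with hAdef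
  set k := (A + 1) / 2 with hk
  have hk1 : 1 ≤ k := by omega
  have hkA : k ≤ A := by omega
  have hcv : (((univ.filter fun ω => P ω ≠ 0).image u).card : ℝ) ≤ Real.exp h := by
    refine le_trans ?_ hh
    rw [Nat.card_eq_fintype_card, Fintype.card_subtype]
    exact_mod_cast card_image_le
  have h0 : 0 ≤ h := by
    have h2 : (1 : ℝ) ≤ Real.exp h := by
      refine le_trans ?_ hh
      have : 0 < Nat.card {ω // P ω ≠ 0} := by
        rw [Nat.card_eq_fintype_card, Fintype.card_pos_iff]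
        by_contra h3
        rw [not_nonempty_iff] at h3
        have h4 : ∑ ω, P ω = 0 := sum_eq_zero fun ω _ => by
          by_contra h5
          exact h3.elim ⟨ω, h5⟩
        have := hP.2
        rw [h4] at this
        exact zero_ne_one this
      exact_mod_cast this
    rwa [Real.one_le_exp_iff] at h2
  obtain ⟨D, S, hD, hS, hloc, hpred⟩ := predictor P u hP.1 hP.2 hσ.le hcv k hk1 hkA
  have hls : 0 < Real.log σ := Real.log_pos hσ
  refine ⟨D, fun e v => univ.filter fun a' => some a' ∈ S v e, ?_, ?_, ?_, ?_⟩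
  · rw [hD]
    have : m ^ 2 * b = A := by rw [hcard]; ring
    rw [this]
    omega
  · intro e v v' hv
    have := hloc v v' hv e
    simp only [this]
  · intro e v
    refine le_trans ?_ (hS v e)
    have : ((univ.filter fun a' => some a' ∈ S v e).map Function.Embedding.some).card ≤
        (S v e).card := by
      refine card_le_card fun x hx => ?_
      obtain ⟨a', ha', rfl⟩ := mem_map.1 hx
      exact (mem_filter.1 ha').2
    rw [card_map] at this
    exact_mod_cast this
  · intro X hX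
    have h2 : ∑ ω, P ω * ((X ω).card : ℝ) ≤
        ∑ e ∈ univ \ D, ∑ ω, (if u ω e ∈ S (u ω) e then 0 else P ω) := by
      rw [sum_comm]
      refine sum_le_sum fun ω _ => ?_
      calc P ω * ((X ω).card : ℝ) = ∑ e ∈ X ω, P ω := by
            rw [sum_const, nsmul_eq_mul, mul_comm]
        _ = ∑ e ∈ X ω, (if u ω e ∈ S (u ω) e then 0 else P ω) := by
            refine sum_congr rfl fun e he => ?_
            obtain ⟨-, a', h3, h4⟩ := hX ω e he
            rw [if_neg]
            intro h5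
            rw [h3] at h5
            exact h4 (mem_filter.2 ⟨mem_univ _, h5⟩)
        _ ≤ ∑ e ∈ univ \ D, (if u ω e ∈ S (u ω) e then 0 else P ω) := by
            refine sum_le_sum_of_subset_of_nonneg (fun e he => ?_) fun e _ _ => ?_
            · exact mem_sdiff.2 ⟨mem_univ _, (hX ω e he).1⟩
            · split_ifs
              exacts [le_rfl, hP.1 ω]
    rw [le_div_iff₀ hls, mul_comm]
    refine (mul_le_mul_of_nonneg_left h2 hls.le).trans (hpred.trans ?_)
    have hk0 : (0 : ℝ) < k := by exact_mod_cast hk1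
    have h3 : ((A : ℝ) - k) / k ≤ 1 := by
      rw [div_le_one hk0]
      have : A ≤ 2 * k := by omega
      have : (A : ℝ) ≤ 2 * k := by exact_mod_cast this
      linarith
    calc ((A : ℝ) - k) / k * h ≤ 1 * h := mul_le_mul_of_nonneg_right h3 h0
      _ = h := one_mul h

end Pool.Agent.Helper50.FS
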