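import Pool.Agent.Helper91.FS.Goals
import Pool.Agent.Helper90.SR.ORB

/-!
# Project FS (MP_0130f7_co), packet HOM: groups transitive on the `m`-sets
-/

set_option autoImplicit false

namespace Pool.Agent.Helper50.FS

open Finset
open Pool.Agent.Helper47.SR (Grp mv lev wt Ew W IsInv up dn StarAt HalfStarAt orb)
open Pool.Agent.Helper90.SR (mem_orb self_mem_orb orb_eq_of_mem)
open Pool.Agent.Helper49.NF
open Pool.Agent.Helper91.FS

theorem W_mono {n : ℕ} (G : Grp n) {F F' : Finset (Finset (Fin n))} (h : F ⊆ F') :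
    W G F ≤ W G F' := Finset.sum_le_sum_of_subset h

theorem lev_inv {n : ℕ} (G : Grp n) (j : ℕ) : IsInv G (lev n j) := by
  intro γ _ A hA
  rw [mem_powersetCard] at hA ⊢
  exact ⟨subset_univ _, by rw [card_map]; exact hA.2⟩

theorem star_hom {n m : ℕ} {G : Grp n} (h1 : Pool.Agent.Helper47.SR.Goal_STAN) (hG : Hom G m)
    (hm : 2 * m + 1 ≤ n) : StarAt G m := by
  intro S Y hS hY hSi hYi hlt
  have hY0 : Y = ∅ := by
    by_contra hne
    obtain ⟨A, hA⟩ := Finset.nonempty_iff_ne_empty.2 hne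
    have hsub : S ⊆ Y := by
      intro B hB
      obtain ⟨γ, hγ, hAB⟩ := hG A (hY hA) B (hS hB)
      rw [← hAB]
      exact hYi γ hγ A hA
    exact absurd (W_mono G hsub) (not_le.2 hlt)
  have hd : dn m Y = ∅ := by
    rw [hY0]
    apply Finset.eq_empty_of_forall_notMem
    intro B hB
    simp only [dn, mem_filter, mem_powersetCard] at hB
    obtain ⟨⟨-, hc⟩, hall⟩ := hB
    have hpos : 0 < #B := by omega
    obtain ⟨a, ha⟩ := Finset.card_pos.1 hpos
    exact absurd (hall a ha) (notMem_empty _)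
  have h2 := h1 n G m hm S hS hSi
  have h3 : W G (dn m Y) = 0 := by
    rw [hd]
    rfl
  omega

theorem step {n j : ℕ} {G : Grp n} (h1 : Pool.Agent.Helper47.SR.Goal_STAN)
    (h2 : Pool.Agent.Helper47.SR.Goal_ORB) (hj : 2 * (j + 1) ≤ n) (hG : Hom G (j + 1)) :
    Hom G j := by
  have hg : 0 < Nat.card G := Nat.card_pos
  have a1 := h1 n G j (by omega) (lev n j) (Subset.refl _) (lev_inv G j)
  have a2 : W G (up j (lev n j)) ≤ W G (lev n (j + 1)) := by
    apply W_mono
    exact filter_subset _ _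
  rw [h2 n G (lev n (j + 1)) (lev_inv G (j + 1))] at a2
  rw [h2 n G (lev n j) (lev_inv G j)] at a1
  have a3 : #((lev n (j + 1)).image (orb G)) ≤ 1 := by
    rw [Finset.card_le_one]
    intro O hO O' hO'
    rw [mem_image] at hO hO'
    obtain ⟨A, hA, rfl⟩ := hO
    obtain ⟨B, hB, rfl⟩ := hO'
    obtain ⟨γ, hγ, hAB⟩ := hG A hA B hB
    exact (orb_eq_of_mem G A B ((mem_orb G A B).2 ⟨γ, hγ, hAB⟩)).symm
  have a4 : Nat.card G * #((lev n j).image (orb G)) ≤ Nat.card G * 1 :=
    a1.trans (a2.trans (Nat.mul_le_mul_left _ a3))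
  have a5 : #((lev n j).image (orb G)) ≤ 1 := Nat.le_of_mul_le_mul_left a4 hg
  intro A hA B hB
  have a6 : orb G A = orb G B := Finset.card_le_one.1 a5 _ (mem_image_of_mem _ hA) _
    (mem_image_of_mem _ hB)
  have a7 : B ∈ orb G A := by
    rw [a6]
    exact self_mem_orb G B
  exact (mem_orb G A B).1 a7

theorem goal_HOM (h1 : Pool.Agent.Helper47.SR.Goal_STAN) (h2 : Pool.Agent.Helper47.SR.Goal_ORB) :
    Goal_HOM := by
  intro n m G hG
  refine ⟨star_hom h1 hG, ?_⟩
  intro hm j hj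
  obtain ⟨k, hk⟩ := Nat.exists_eq_add_of_le hj
  clear hj
  induction k generalizing j with
  | zero =>
    rw [Nat.add_zero] at hk
    rw [← hk]
    exact hG
  | succ k ih =>
    exact step h1 h2 (by omega) (ih (j + 1) (by omega))

end Pool.Agent.Helper50.FS
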